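import Pool.Agent.N525.LK.Core

set_option autoImplicit false

/-!
# MP_32f1bc_co: pairs linked in `ℝ^(d+1)` are globally linked in `ℝ^d`

Positive answer to Q1, for every graph, every pair of vertices and every dimension `d`.

Proof. Let `(G, p)` be generic in `ℝ^d`, let `(G, q)` be equivalent, and let `f` be a coordinate
function of `q`. Let `g : V → ℝ` be generic over `ℚ(p, f)`. For `c = 1, 2` the realisation
`(p, f + c g)` in `ℝ^(d+1)` is generic, so `G + uv` has a stress with value `1` at `uv` there. The
difference of two stresses of `(G + uv, p)` with value `1` at `uv` is a stress of `(G, p)`, hence, by a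
lemma of Connelly, a stress of `(G, q)`, and annihilates `f`. So `B(f, y)` does not depend on the
stress, where `B` is its energy form, and `B(f + c g, f) = 0` for `c = 1, 2` gives `B(f, f) = 0`. The
sum over the coordinates of `q` gives `|q u - q v| = |p u - p v|`.
-/

namespace Pool.Agent.Results.MP_32f1bc_co.LinkedGloballyLinked

open SimpleGraph

variable {V : Type*} {d : ℕ}

/-- A realisation `p` in `ℝ^d` is generic: the coordinates of its points are algebraically
independent over `ℚ`. -/
def Generic (p : V → EuclideanSpace ℝ (Fin d)) : Prop :=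
  AlgebraicIndependent ℚ (fun c : V × Fin d => p c.1 c.2)

open Classical in
/-- The row of the pair `xy` of the rigidity matrix: `p x - p y` in the columns of `x`, `p y - p x`
in the columns of `y`, and zeros elsewhere. -/
noncomputable def row (p : V → EuclideanSpace ℝ (Fin d)) (x y : V) : V × Fin d → ℝ := fun c =>
  (if c.1 = x then p x c.2 - p y c.2 else 0) + (if c.1 = y then p y c.2 - p x c.2 else 0)

/-- The rank of the rigidity matrix of `(G, p)`. -/
noncomputable def rankAt (G : SimpleGraph V) (p : V → EuclideanSpace ℝ (Fin d)) : ℕ :=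
  Module.finrank ℝ (Submodule.span ℝ {r | ∃ x y, G.Adj x y ∧ r = row p x y})

/-- The rank `r_d(G)` in the generic rigidity matroid in `ℝ^d`: the rank of the rigidity matrix of a
generic realisation (it is the same for all generic realisations, see `rk_eq`). -/
noncomputable def rk (d : ℕ) (G : SimpleGraph V) : ℕ :=
  sSup {k | ∃ p : V → EuclideanSpace ℝ (Fin d), Generic p ∧ k = rankAt G p}

/-- `{u, v}` is linked in `G` in `ℝ^d`: `r_d(G + uv) = r_d(G)`. -/
def Linked (d : ℕ) (G : SimpleGraph V) (u v : V) : Prop := rk d (G ⊔ edge u v) = rk d G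

/-- The realisations `(G, p)` and `(G, q)` are equivalent. -/
def Equivalent (G : SimpleGraph V) (p q : V → EuclideanSpace ℝ (Fin d)) : Prop :=
  ∀ x y, G.Adj x y → dist (p x) (p y) = dist (q x) (q y)

/-- `{u, v}` is globally linked in `G` in `ℝ^d`: every generic realisation `(G, p)` and every
equivalent realisation `(G, q)` have the same distance of `u` and `v`. -/
def GloballyLinked (d : ℕ) (G : SimpleGraph V) (u v : V) : Prop :=
  ∀ p q : V → EuclideanSpace ℝ (Fin d), Generic p → Equivalent G p q →
    dist (p u) (p v) = dist (q u) (q v)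

/-! ### the rank is the same at all generic realisations -/

section Rank

open Pool.Agent.H135R2.VS

variable [Fintype V] [DecidableEq V]

theorem rankAt_eq (G : SimpleGraph V) (p : V → EuclideanSpace ℝ (Fin d)) :
    rankAt G p = (evm (Rp d ⊥ G) (unc (fun i a => p i a))).rank := by
  classical
  rw [Matrix.rank_eq_finrank_span_row]
  have hrow : ∀ x y, G.Adj x y →
      (evm (Rp d ⊥ G) (unc (fun i a => p i a))).row (x, y) = row p x y := by
    intro x y h
    ext c
    simp only [Matrix.row, evm, Matrix.map_apply, Rp, Matrix.of_apply, if_pos h, row, map_add]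
    congr 1
    · split_ifs <;> simp [unc]
    · split_ifs <;> simp [unc]
  have hrow0 : ∀ x y, ¬ G.Adj x y →
      (evm (Rp d ⊥ G) (unc (fun i a => p i a))).row (x, y) = 0 := by
    intro x y h
    ext c
    simp [Matrix.row, evm, Matrix.map_apply, Rp, h]
  unfold rankAt
  have : Submodule.span ℝ {r | ∃ x y, G.Adj x y ∧ r = row p x y} =
      Submodule.span ℝ (Set.range (evm (Rp d ⊥ G) (unc (fun i a => p i a))).row) := by
    apply le_antisymm
    · apply Submodule.span_mono
      rintro r ⟨x, y, h, rfl⟩
      exact ⟨(x, y), hrow x y h⟩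
    · rw [Submodule.span_le]
      rintro _ ⟨⟨x, y⟩, rfl⟩
      by_cases h : G.Adj x y
      · rw [hrow x y h]
        exact Submodule.subset_span ⟨x, y, h, rfl⟩
      · rw [hrow0 x y h]
        exact Submodule.zero_mem _
  rw [this]

theorem rankAt_le (G : SimpleGraph V) {p p' : V → EuclideanSpace ℝ (Fin d)} (hp : Generic p) :
    rankAt G p' ≤ rankAt G p := by
  rw [rankAt_eq, rankAt_eq]
  have hp' : AlgebraicIndependent (⊥ : SF) (unc (fun i a => p i a)) := bot_of_rat hp
  exact rank_le_generic (Rp d ⊥ G) hp'

/-- `r_d(G)` is the rank of the rigidity matrix of any generic realisation. -/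
theorem rk_eq (G : SimpleGraph V) {p : V → EuclideanSpace ℝ (Fin d)} (hp : Generic p) :
    rk d G = rankAt G p := by
  unfold rk
  have : {k | ∃ p : V → EuclideanSpace ℝ (Fin d), Generic p ∧ k = rankAt G p} = {rankAt G p} := by
    ext k
    constructor
    · rintro ⟨p', hp', rfl⟩
      exact le_antisymm (rankAt_le G hp) (rankAt_le G hp')
    · rintro rfl
      exact ⟨p, hp, rfl⟩
  rw [this, csSup_singleton]

/-- A linked pair: its row is a combination of the rows of `G`. -/
theorem exists_lk {G : SimpleGraph V} {u v : V} (h : Linked d G u v) (P : Conf d V) (hP : Gen P) :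
    ∃ s, Pool.Agent.N525.LK.Lk G u v P s := by
  classical
  by_cases huv : u = v
  · subst huv
    refine ⟨fun _ _ => 0, fun _ _ _ => rfl, fun a z => ?_⟩
    simp [en]
  let p : V → EuclideanSpace ℝ (Fin d) := fun i => WithLp.toLp 2 (P i)
  have hp : Generic p := hP
  have h1 : rankAt (G ⊔ edge u v) p = rankAt G p := by
    rw [← rk_eq _ hp, ← rk_eq _ hp]; exact h
  have h2 : Submodule.span ℝ {r | ∃ x y, G.Adj x y ∧ r = row p x y} =
      Submodule.span ℝ {r | ∃ x y, (G ⊔ edge u v).Adj x y ∧ r = row p x y} := by
    apply Submodule.eq_of_le_of_finrank_le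
    · apply Submodule.span_mono
      rintro r ⟨x, y, hxy, rfl⟩
      exact ⟨x, y, Or.inl hxy, rfl⟩
    · exact h1.le
  have h3 : row p u v ∈ Submodule.span ℝ {r | ∃ x y, G.Adj x y ∧ r = row p x y} := by
    rw [h2]
    refine Submodule.subset_span ⟨u, v, Or.inr ?_, rfl⟩
    rw [edge_adj]
    exact ⟨Or.inl ⟨rfl, rfl⟩, huv⟩
  have h4 : row p u v ∈ Submodule.span ℝ
      (Set.range fun e : V × V => if G.Adj e.1 e.2 then row p e.1 e.2 else 0) := by
    refine Submodule.span_mono ?_ h3
    rintro r ⟨x, y, hxy, rfl⟩
    exact ⟨(x, y), if_pos hxy⟩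
  obtain ⟨c, hc⟩ := (Submodule.mem_span_range_iff_exists_fun ℝ).1 h4
  refine ⟨fun i j => if G.Adj i j then - c (i, j) else 0, fun i j hij => if_neg hij, fun a z => ?_⟩
  have hrow : ∀ x y, ∑ w, row p x y (w, a) * z w = (P x a - P y a) * (z x - z y) := by
    intro x y
    simp only [row, add_mul, ite_mul, zero_mul, Finset.sum_add_distrib, Finset.sum_ite_eq',
      Finset.mem_univ, if_true]
    change (P x a - P y a) * z x + (P y a - P x a) * z y = _
    ring
  have h5 : ∑ w, row p u v (w, a) * z w = ∑ e : V × V, c e *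
      (if G.Adj e.1 e.2 then (P e.1 a - P e.2 a) * (z e.1 - z e.2) else 0) := by
    rw [← hc]
    simp only [Finset.sum_apply, Finset.sum_mul]
    rw [Finset.sum_comm]
    refine Finset.sum_congr rfl fun e _ => ?_
    by_cases he : G.Adj e.1 e.2
    · simp only [if_pos he, Pi.smul_apply, smul_eq_mul]
      rw [← hrow, Finset.mul_sum]
      exact Finset.sum_congr rfl fun w _ => by ring
    · simp [if_neg he]
  rw [hrow, Fintype.sum_prod_type] at h5
  rw [h5]
  unfold en
  rw [← Finset.sum_add_distrib]
  refine Finset.sum_eq_zero fun i _ => ?_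
  rw [← Finset.sum_add_distrib]
  refine Finset.sum_eq_zero fun j _ => ?_
  by_cases hij : G.Adj i j
  · simp only [if_pos hij]
    ring
  · simp only [if_neg hij, zero_mul, mul_zero, add_zero]

end Rank

/-- **Pairs linked in `ℝ^(d+1)` are globally linked in `ℝ^d`.** -/
theorem result (d : ℕ) {V : Type*} [Finite V] (G : SimpleGraph V) (u v : V)
    (h : Linked (d + 1) G u v) : GloballyLinked d G u v := by
  classical
  have := Fintype.ofFinite V
  intro p q hp hpq
  have hfl : ∀ (m : V → EuclideanSpace ℝ (Fin d)) (x y : V),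
      Pool.Agent.H135R2.VS.fl (fun i a => m i a) (fun i a => m i a) x y =
        dist (m x) (m y) ^ 2 := by
    intro m x y
    rw [EuclideanSpace.dist_eq, Real.sq_sqrt (Finset.sum_nonneg fun _ _ => sq_nonneg _)]
    unfold Pool.Agent.H135R2.VS.fl
    refine Finset.sum_congr rfl fun a _ => ?_
    rw [Real.dist_eq, sq_abs, sq]
  have key := Pool.Agent.N525.LK.core (G := G) (u := u) (v := v)
    (p := fun i a => p i a) (q := fun i a => q i a) (fun P hP => exists_lk h P hP) hp
    (fun x y hxy => by rw [hfl, hfl, hpq x y hxy])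
  rw [hfl, hfl] at key
  exact ((sq_eq_sq₀ dist_nonneg dist_nonneg).1 key).symm

end Pool.Agent.Results.MP_32f1bc_co.LinkedGloballyLinked
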